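import Mathlib

set_option autoImplicit false

/-!
# Every finite interval graph is a unit max-tolerance graph

Order the vertices `v_0, v_1, ...` by the left ends of their intervals, let `2 ^ i` be the left end of
the new interval of `v_i`, all new intervals having the same large length `l`, and let the tolerance of
`v_i` be `l - r_i`, where `r_i` is the largest distance `2 ^ k - 2 ^ i` to a later neighbour `v_k`, and
`2 ^ i - 1 / 2` if there is no later neighbour.  Since the positions grow so fast, the tolerance of
`v_i` never excludes an earlier vertex, and it excludes exactly those later vertices which are not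
neighbours.
-/

namespace Pool.Agent.Helper41.Withdrawn.UnitRepresentation

open MeasureTheory

universe u

/-- `G` is an interval graph: the intersection graph of a family of real intervals (nonempty order
connected subsets of the line, open or closed or half-open, bounded or not). -/
def IsIntervalGraph {V : Type u} (G : SimpleGraph V) : Prop :=
  ∃ J : V → Set ℝ, (∀ v, (J v).OrdConnected ∧ (J v).Nonempty) ∧
    ∀ u v, u ≠ v → (G.Adj u v ↔ (J u ∩ J v).Nonempty)

/-- The closed intervals `[L v, R v]` and the tolerances `t v > 0` form a max-tolerance representation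
of `G`: distinct vertices `u`, `v` are adjacent if and only if the length of the intersection of their
intervals is at least the larger one of their tolerances. -/
def IsMaxToleranceRep {V : Type u} (G : SimpleGraph V) (L R t : V → ℝ) : Prop :=
  (∀ v, L v < R v ∧ 0 < t v) ∧
  ∀ u v, u ≠ v → (G.Adj u v ↔
    max (t u) (t v) ≤ (volume (Set.Icc (L u) (R u) ∩ Set.Icc (L v) (R v))).toReal)

/-- `G` is a unit max-tolerance graph: it has a max-tolerance representation in which all intervals
have the same length. -/
def IsUnitMaxTolerance {V : Type u} (G : SimpleGraph V) : Prop :=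
  ∃ (L R t : V → ℝ) (l : ℝ), IsMaxToleranceRep G L R t ∧ ∀ v, R v - L v = l

/-- An interval graph is the intersection graph of compact intervals. -/
lemma exists_closed {V : Type u} [Fintype V] {G : SimpleGraph V} (h : IsIntervalGraph G) :
    ∃ a b : V → ℝ, (∀ v, a v ≤ b v) ∧
      ∀ u v, u ≠ v → (G.Adj u v ↔ (a u ≤ b v ∧ a v ≤ b u)) := by
  classical
  obtain ⟨J, hJ, hadj⟩ := h
  -- a common point for each adjacent pair, and a point of each interval
  have hp : ∀ u v : V, ∃ p : ℝ, (J u ∩ J v).Nonempty → p ∈ J u ∧ p ∈ J v := by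
    intro u v
    by_cases hn : (J u ∩ J v).Nonempty
    · obtain ⟨p, hp⟩ := hn
      exact ⟨p, fun _ => hp⟩
    · exact ⟨0, fun h => absurd h hn⟩
  choose p hp using hp
  let S : V → Finset ℝ := fun v =>
    ((Finset.univ.filter fun u => (J u ∩ J v).Nonempty).image fun u => p u v) ∪
    ((Finset.univ.filter fun u => (J v ∩ J u).Nonempty).image fun u => p v u)
  have hself : ∀ v, (J v ∩ J v).Nonempty := fun v => by
    rw [Set.inter_self]; exact (hJ v).2
  have hSJ : ∀ v, ∀ x ∈ S v, x ∈ J v := by
    intro v x hx
    simp only [S, Finset.mem_union, Finset.mem_image, Finset.mem_filter, Finset.mem_univ,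
      true_and] at hx
    rcases hx with ⟨u, hu, rfl⟩ | ⟨u, hu, rfl⟩
    · exact (hp u v hu).2
    · exact (hp v u hu).1
  have hSne : ∀ v, (S v).Nonempty := by
    intro v
    refine ⟨p v v, ?_⟩
    simp only [S, Finset.mem_union, Finset.mem_image, Finset.mem_filter, Finset.mem_univ,
      true_and]
    exact Or.inl ⟨v, hself v, rfl⟩
  refine ⟨fun v => (S v).min' (hSne v), fun v => (S v).max' (hSne v), ?_, ?_⟩
  · intro v
    exact Finset.min'_le_max' _ _
  · intro u v huv
    have memu : ∀ v, (S v).min' (hSne v) ∈ J v := fun v => hSJ v _ (Finset.min'_mem _ _)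
    have memv : ∀ v, (S v).max' (hSne v) ∈ J v := fun v => hSJ v _ (Finset.max'_mem _ _)
    constructor
    · intro h
      have hne := (hadj u v huv).1 h
      have h1 : p u v ∈ S u := by
        simp only [S, Finset.mem_union, Finset.mem_image, Finset.mem_filter, Finset.mem_univ,
          true_and]
        exact Or.inr ⟨v, hne, rfl⟩
      have h2 : p u v ∈ S v := by
        simp only [S, Finset.mem_union, Finset.mem_image, Finset.mem_filter, Finset.mem_univ,
          true_and]
        exact Or.inl ⟨u, hne, rfl⟩
      exact ⟨(Finset.min'_le _ _ h1).trans (Finset.le_max' _ _ h2),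
        (Finset.min'_le _ _ h2).trans (Finset.le_max' _ _ h1)⟩
    · rintro ⟨h1, h2⟩
      rw [hadj u v huv]
      -- the larger one of the two left ends is a common point
      rcases le_total ((S u).min' (hSne u)) ((S v).min' (hSne v)) with h | h
      · exact ⟨_, (hJ u).1.out (memu u) (memv u) ⟨h, h2⟩, memu v⟩
      · exact ⟨_, memu u, (hJ v).1.out (memu v) (memv v) ⟨h, h1⟩⟩

/-- An enumeration of the vertices in which the later neighbours of a vertex are consecutive. -/
lemma exists_order {V : Type u} [Fintype V] {G : SimpleGraph V} (h : IsIntervalGraph G) :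
    ∃ e : Fin (Fintype.card V) ≃ V, ∀ i j k, i < j → j < k → G.Adj (e i) (e k) →
      G.Adj (e i) (e j) := by
  classical
  obtain ⟨a, b, hab, hadj⟩ := exists_closed h
  let f : Fin (Fintype.card V) → ℝ := fun i => a ((Fintype.equivFin V).symm i)
  let e : Fin (Fintype.card V) ≃ V := (Tuple.sort f).trans (Fintype.equivFin V).symm
  have hmono : Monotone (fun i => a (e i)) := Tuple.monotone_sort f
  refine ⟨e, ?_⟩
  intro i j k hij hjk hik
  have h1 : e i ≠ e k := fun h => absurd (e.injective h) (hij.trans hjk).ne
  have h2 : e i ≠ e j := fun h => absurd (e.injective h) hij.ne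
  rw [hadj _ _ h2]
  have h3 := (hadj _ _ h1).1 hik
  exact ⟨(hmono hij.le).trans (hab _), (hmono hjk.le).trans h3.2⟩

/-- The radii. -/
lemma exists_radius {V : Type u} [Fintype V] {G : SimpleGraph V}
    (e : Fin (Fintype.card V) ≃ V)
    (he : ∀ i j k, i < j → j < k → G.Adj (e i) (e k) → G.Adj (e i) (e j)) (i : Fin (Fintype.card V)) :
    ∃ r : ℝ, (2 : ℝ) ^ (i : ℕ) - 1 / 2 ≤ r ∧ r < 2 ^ (Fintype.card V) ∧
      ∀ j, i < j → (G.Adj (e i) (e j) ↔ (2 : ℝ) ^ (j : ℕ) - 2 ^ (i : ℕ) ≤ r) := by
  classical
  have hpos : ∀ n : ℕ, (0 : ℝ) < 2 ^ n := fun n => by positivity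
  have hlt : ∀ m n : ℕ, m < n → (2 : ℝ) * 2 ^ m ≤ 2 ^ n := by
    intro m n hmn
    rw [← pow_succ']
    exact pow_le_pow_right₀ (by norm_num) hmn
  by_cases hex : ∃ j, i < j ∧ G.Adj (e i) (e j)
  · let F : Finset (Fin (Fintype.card V)) := Finset.univ.filter fun j => i < j ∧ G.Adj (e i) (e j)
    have hF : F.Nonempty := by
      obtain ⟨j, hj⟩ := hex
      exact ⟨j, by simpa [F] using hj⟩
    have hk : i < F.max' hF ∧ G.Adj (e i) (e (F.max' hF)) := by
      have := Finset.max'_mem F hF
      simpa [F] using this
    refine ⟨(2 : ℝ) ^ ((F.max' hF : Fin _) : ℕ) - 2 ^ (i : ℕ), ?_, ?_, ?_⟩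
    · have h1 := hlt i (F.max' hF : Fin _) hk.1
      linarith [hpos i]
    · have h1 : (2 : ℝ) ^ ((F.max' hF : Fin _) : ℕ) ≤ 2 ^ (Fintype.card V) :=
        pow_le_pow_right₀ (by norm_num) (F.max' hF).isLt.le
      linarith [hpos i]
    · intro j hij
      constructor
      · intro hadj
        have h1 : j ≤ F.max' hF := Finset.le_max' _ _ (by simpa [F] using ⟨hij, hadj⟩)
        have h2 : (2 : ℝ) ^ (j : ℕ) ≤ 2 ^ ((F.max' hF : Fin _) : ℕ) :=
          pow_le_pow_right₀ (by norm_num) h1
        linarith
      · intro hle
        rcases lt_trichotomy j (F.max' hF) with h | h | h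
        · exact he i j _ hij h hk.2
        · rw [h]; exact hk.2
        · have h1 := hlt (F.max' hF : Fin _) j h
          have h2 := hpos ((F.max' hF : Fin _) : ℕ)
          linarith
  · refine ⟨(2 : ℝ) ^ (i : ℕ) - 1 / 2, le_refl _, ?_, ?_⟩
    · have h1 : (2 : ℝ) ^ (i : ℕ) ≤ 2 ^ (Fintype.card V) :=
        pow_le_pow_right₀ (by norm_num) i.isLt.le
      linarith
    · intro j hij
      constructor
      · intro hadj
        exact absurd ⟨j, hij, hadj⟩ hex
      · intro hle
        have h1 := hlt i j hij
        linarith

/-- The length of the intersection of two intervals of length `l` at distance less than `l`. -/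
lemma overlap (x y l : ℝ) (h : |x - y| ≤ l) :
    (volume (Set.Icc x (x + l) ∩ Set.Icc y (y + l))).toReal = l - |x - y| := by
  rw [Set.Icc_inter_Icc, Real.volume_Icc]
  rcases le_total x y with hxy | hxy
  · rw [max_eq_right hxy, min_eq_left (by linarith)]
    rw [abs_of_nonpos (by linarith)] at h ⊢
    rw [ENNReal.toReal_ofReal (by linarith)]
    ring
  · rw [max_eq_left hxy, min_eq_right (by linarith)]
    rw [abs_of_nonneg (by linarith)] at h ⊢
    rw [ENNReal.toReal_ofReal (by linarith)]
    ring

/-- **Theorem.** Every finite interval graph is a unit max-tolerance graph: it has a max-tolerance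
representation in which all intervals have the same length. -/
theorem result : ∀ (V : Type u) [Finite V] (G : SimpleGraph V), IsIntervalGraph G →
    IsUnitMaxTolerance G := by
  intro V _ G hG
  classical
  have := Fintype.ofFinite V
  obtain ⟨e, he⟩ := exists_order hG
  choose r hr1 hr2 hr3 using exists_radius e he
  let x : V → ℝ := fun v => 2 ^ ((e.symm v : Fin _) : ℕ)
  let l : ℝ := 2 ^ (Fintype.card V)
  have hxpos : ∀ v, 0 < x v := fun v => by positivity
  have hxl : ∀ v, x v ≤ l := fun v => pow_le_pow_right₀ (by norm_num) (e.symm v).isLt.le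
  have hlpos : 0 < l := by positivity
  refine ⟨x, fun v => x v + l, fun v => l - r (e.symm v), l, ⟨?_, ?_⟩, fun v => by ring⟩
  · intro v
    exact ⟨by linarith, by linarith [hr2 (e.symm v)]⟩
  · -- the case of an earlier vertex `u` and a later vertex `v`
    have key : ∀ u v, e.symm u < e.symm v → (G.Adj u v ↔
        max (l - r (e.symm u)) (l - r (e.symm v)) ≤
          (volume (Set.Icc (x u) (x u + l) ∩ Set.Icc (x v) (x v + l))).toReal) := by
      intro u v huv
      have h1 : x u ≤ x v := pow_le_pow_right₀ (by norm_num) (le_of_lt huv)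
      have h2 : |x u - x v| = x v - x u := by
        rw [abs_of_nonpos (by linarith)]; ring
      rw [overlap _ _ _ (by rw [h2]; linarith [hxpos u, hxl v]), h2]
      have h3 := hr3 (e.symm u) (e.symm v) huv
      simp only [Equiv.apply_symm_apply] at h3
      have h4 : x v - x u ≤ r (e.symm v) := by
        have h5 := hr1 (e.symm v)
        have h6 : (1 : ℝ) ≤ x u := one_le_pow₀ (by norm_num)
        have h7 : x v = 2 ^ ((e.symm v : Fin _) : ℕ) := rfl
        rw [← h7] at h5
        linarith
      rw [h3]
      change x v - x u ≤ r (e.symm u) ↔ _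
      constructor
      · intro h
        exact max_le (by linarith) (by linarith)
      · intro h
        have := (le_max_left _ _).trans h
        linarith
    intro u v huv
    have hne : e.symm u ≠ e.symm v := fun h => huv (e.symm.injective h)
    rcases lt_or_gt_of_ne hne with h | h
    · exact key u v h
    · rw [G.adj_comm, max_comm, Set.inter_comm]
      exact key v u h

end Pool.Agent.Helper41.Withdrawn.UnitRepresentation
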